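import Mathlib

set_option autoImplicit false

namespace Pool.Agent.Results.MP_232fda_co.MixedDeletions

open Finset

/-- A majority C-colouring: every vertex has at least half of its neighbours in its own colour
class. -/
def MajorityC {V ι : Type*} (G : SimpleGraph V) (c : V → ι) : Prop :=
  ∀ v, {w | G.Adj v w}.ncard ≤ 2 * {w | G.Adj v w ∧ c w = c v}.ncard

/-- The majority C-chromatic number: the largest number of (nonempty) colour classes. -/
noncomputable def mc {V : Type*} (G : SimpleGraph V) : ℕ :=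
  sSup {k | ∃ c : V → Fin k, Function.Surjective c ∧ MajorityC G c}

theorem le_mc {V : Type*} [Fintype V] {G : SimpleGraph V} {k : ℕ} (c : V → Fin k)
    (hs : Function.Surjective c) (hc : MajorityC G c) : k ≤ mc G := by
  refine le_csSup ⟨Fintype.card V, ?_⟩ ⟨c, hs, hc⟩
  rintro k ⟨c, hs, -⟩
  simpa using Fintype.card_le_of_surjective c hs

theorem mc_le {V : Type*} [Nonempty V] {G : SimpleGraph V} {m : ℕ}
    (h : ∀ (k : ℕ) (c : V → Fin k), Function.Surjective c → MajorityC G c → k ≤ m) :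
    mc G ≤ m := by
  refine csSup_le ⟨1, fun _ => 0, fun b => ⟨Classical.arbitrary V, Subsingleton.elim _ _⟩, ?_⟩ ?_
  · intro v
    simp only [and_true]
    omega
  · rintro k ⟨c, hs, hc⟩
    exact h k c hs hc

/-! ### The graph -/

/-- Neighbour lists. The vertices `0, 1, 2, 3` form a 4-cycle; `4, 5` are joined to `0, 2` and
`6, 7` to `1, 3`; `8, 9, 10, 11` are joined to `4, 5, 6, 7`, respectively, and to `12`; each of
`4, 5, 6, 7` has two and `12` has three pendant neighbours. -/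
def nb (i : ℕ) : List ℕ :=
  List.getD
    [[1, 3, 4, 5],
     [0, 2, 6, 7],
     [1, 3, 4, 5],
     [0, 2, 6, 7],
     [0, 2, 8, 13, 14],
     [0, 2, 9, 15, 16],
     [1, 3, 10, 17, 18],
     [1, 3, 11, 19, 20],
     [4, 12],
     [5, 12],
     [6, 12],
     [7, 12],
     [8, 9, 10, 11, 21, 22, 23],
     [4],
     [4],
     [5],
     [5],
     [6],
     [6],
     [7],
     [7],
     [12],
     [12],
     [12]] i []

def G : SimpleGraph (Fin 24) where
  Adj u v := (v : ℕ) ∈ nb u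
  symm := ⟨by decide +kernel⟩
  loopless := ⟨by decide +kernel⟩

instance : DecidableRel G.Adj := fun u v => inferInstanceAs (Decidable ((v : ℕ) ∈ nb u))

abbrev del (a b : Fin 24) : SimpleGraph (Fin 24) := G.deleteEdges {s(a, b)}

theorem del_adj (a b u v : Fin 24) :
    (del a b).Adj u v ↔ G.Adj u v ∧ ¬ ((u = a ∧ v = b) ∨ (u = b ∧ v = a)) := by
  rw [SimpleGraph.deleteEdges_adj, Set.mem_singleton_iff, Sym2.eq_iff]

instance (a b : Fin 24) : DecidableRel (del a b).Adj :=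
  fun u v => decidable_of_iff' _ (del_adj a b u v)

theorem majority_iff {k : ℕ} (H : SimpleGraph (Fin 24)) [DecidableRel H.Adj]
    (c : Fin 24 → Fin k) :
    MajorityC H c ↔ ∀ v, (univ.filter (H.Adj v)).card ≤
      2 * (univ.filter (fun w => H.Adj v w ∧ c w = c v)).card := by
  simp only [MajorityC, Set.ncard_eq_toFinset_card', Set.toFinset_ofPred]

/-! ### Lower bounds -/

/-- For every edge outside the 4-cycle, a majority C-colouring with six classes of the graph
without that edge. -/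
def cert : List (Fin 24 × Fin 24 × List (Fin 6)) :=
  [(0, 4, [0, 0, 0, 0, 1, 2, 3, 4, 5, 2, 3, 4, 5, 1, 1, 2, 2, 3, 3, 4, 4, 5, 5, 5]),
   (0, 5, [0, 0, 0, 0, 1, 2, 3, 4, 1, 5, 3, 4, 5, 1, 1, 2, 2, 3, 3, 4, 4, 5, 5, 5]),
   (1, 6, [0, 0, 0, 0, 1, 2, 3, 4, 1, 2, 5, 4, 5, 1, 1, 2, 2, 3, 3, 4, 4, 5, 5, 5]),
   (1, 7, [0, 0, 0, 0, 1, 2, 3, 4, 1, 2, 3, 5, 5, 1, 1, 2, 2, 3, 3, 4, 4, 5, 5, 5]),
   (2, 4, [0, 0, 0, 0, 1, 2, 3, 4, 5, 2, 3, 4, 5, 1, 1, 2, 2, 3, 3, 4, 4, 5, 5, 5]),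
   (2, 5, [0, 0, 0, 0, 1, 2, 3, 4, 1, 5, 3, 4, 5, 1, 1, 2, 2, 3, 3, 4, 4, 5, 5, 5]),
   (3, 6, [0, 0, 0, 0, 1, 2, 3, 4, 1, 2, 5, 4, 5, 1, 1, 2, 2, 3, 3, 4, 4, 5, 5, 5]),
   (3, 7, [0, 0, 0, 0, 1, 2, 3, 4, 1, 2, 3, 5, 5, 1, 1, 2, 2, 3, 3, 4, 4, 5, 5, 5]),
   (4, 8, [0, 0, 0, 0, 1, 2, 3, 4, 5, 2, 3, 4, 5, 1, 1, 2, 2, 3, 3, 4, 4, 5, 5, 5]),
   (4, 13, [0, 0, 0, 0, 1, 2, 3, 4, 1, 2, 3, 4, 1, 5, 1, 2, 2, 3, 3, 4, 4, 1, 1, 1]),
   (4, 14, [0, 0, 0, 0, 1, 2, 3, 4, 1, 2, 3, 4, 1, 1, 5, 2, 2, 3, 3, 4, 4, 1, 1, 1]),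
   (5, 9, [0, 0, 0, 0, 1, 2, 3, 4, 1, 5, 3, 4, 5, 1, 1, 2, 2, 3, 3, 4, 4, 5, 5, 5]),
   (5, 15, [0, 0, 0, 0, 1, 2, 3, 4, 1, 2, 3, 4, 2, 1, 1, 5, 2, 3, 3, 4, 4, 2, 2, 2]),
   (5, 16, [0, 0, 0, 0, 1, 2, 3, 4, 1, 2, 3, 4, 2, 1, 1, 2, 5, 3, 3, 4, 4, 2, 2, 2]),
   (6, 10, [0, 0, 0, 0, 1, 2, 3, 4, 1, 2, 5, 4, 5, 1, 1, 2, 2, 3, 3, 4, 4, 5, 5, 5]),
   (6, 17, [0, 0, 0, 0, 1, 2, 3, 4, 1, 2, 3, 4, 3, 1, 1, 2, 2, 5, 3, 4, 4, 3, 3, 3]),
   (6, 18, [0, 0, 0, 0, 1, 2, 3, 4, 1, 2, 3, 4, 3, 1, 1, 2, 2, 3, 5, 4, 4, 3, 3, 3]),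
   (7, 11, [0, 0, 0, 0, 1, 2, 3, 4, 1, 2, 3, 5, 5, 1, 1, 2, 2, 3, 3, 4, 4, 5, 5, 5]),
   (7, 19, [0, 0, 0, 0, 1, 2, 3, 4, 1, 2, 3, 4, 4, 1, 1, 2, 2, 3, 3, 5, 4, 4, 4, 4]),
   (7, 20, [0, 0, 0, 0, 1, 2, 3, 4, 1, 2, 3, 4, 4, 1, 1, 2, 2, 3, 3, 4, 5, 4, 4, 4]),
   (8, 12, [0, 0, 0, 0, 1, 2, 3, 4, 1, 2, 3, 4, 5, 1, 1, 2, 2, 3, 3, 4, 4, 5, 5, 5]),
   (9, 12, [0, 0, 0, 0, 1, 2, 3, 4, 1, 2, 3, 4, 5, 1, 1, 2, 2, 3, 3, 4, 4, 5, 5, 5]),
   (10, 12, [0, 0, 0, 0, 1, 2, 3, 4, 1, 2, 3, 4, 5, 1, 1, 2, 2, 3, 3, 4, 4, 5, 5, 5]),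
   (11, 12, [0, 0, 0, 0, 1, 2, 3, 4, 1, 2, 3, 4, 5, 1, 1, 2, 2, 3, 3, 4, 4, 5, 5, 5]),
   (12, 21, [0, 0, 0, 0, 1, 2, 3, 4, 1, 2, 3, 4, 1, 1, 1, 2, 2, 3, 3, 4, 4, 5, 1, 1]),
   (12, 22, [0, 0, 0, 0, 1, 2, 3, 4, 1, 2, 3, 4, 1, 1, 1, 2, 2, 3, 3, 4, 4, 1, 5, 1]),
   (12, 23, [0, 0, 0, 0, 1, 2, 3, 4, 1, 2, 3, 4, 1, 1, 1, 2, 2, 3, 3, 4, 4, 1, 1, 5])]

def col (l : List (Fin 6)) : Fin 24 → Fin 6 := fun v => l.getD v 0

theorem cert_ok : ∀ t ∈ cert, (∀ b : Fin 6, ∃ a, col t.2.2 a = b) ∧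
    ∀ v, (univ.filter ((del t.1 t.2.1).Adj v)).card ≤
      2 * (univ.filter (fun w => (del t.1 t.2.1).Adj v w ∧ col t.2.2 w = col t.2.2 v)).card := by
  decide +kernel

theorem cert_all : ∀ a b : Fin 24, G.Adj a b → ((a : ℕ) < 4 ∧ (b : ℕ) < 4) ∨
    ∃ t ∈ cert, (t.1 = a ∧ t.2.1 = b) ∨ (t.1 = b ∧ t.2.1 = a) := by
  decide +kernel

theorem six_le (a b : Fin 24) (h : G.Adj a b) (hn : ¬ ((a : ℕ) < 4 ∧ (b : ℕ) < 4)) :
    6 ≤ mc (del a b) := by
  rcases cert_all a b h with h1 | ⟨t, ht, h1⟩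
  · exact absurd h1 hn
  · obtain ⟨h2, h3⟩ := cert_ok t ht
    have h4 : del a b = del t.1 t.2.1 := by
      rcases h1 with ⟨e1, e2⟩ | ⟨e1, e2⟩
      · rw [e1, e2]
      · rw [e1, e2]
        unfold del
        rw [Sym2.eq_swap]
    rw [h4]
    exact le_mc (col t.2.2) h2 ((majority_iff _ _).2 h3)

def base : List (Fin 5) := [0, 0, 0, 0, 1, 2, 3, 4, 1, 2, 3, 4, 1, 1, 1, 2, 2, 3, 3, 4, 4, 1, 1, 1]

theorem five_le : 5 ≤ mc G := by
  refine le_mc (fun v => base.getD v 0) ?_ ((majority_iff _ _).2 ?_)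
  · unfold Function.Surjective
    decide +kernel
  · decide +kernel

/-! ### Upper bounds -/

theorem loc {k : ℕ} {H : SimpleGraph (Fin 24)} [DecidableRel H.Adj] {c : Fin 24 → Fin k}
    (hc : MajorityC H c) (v : Fin 24) (S : Finset (Fin 24)) (hS : univ.filter (H.Adj v) = S) :
    S.card ≤ 2 * ∑ w ∈ S, if c w = c v then 1 else 0 := by
  have h := (majority_iff H c).1 hc v
  have e : (univ.filter (fun w => H.Adj v w ∧ c w = c v)).card =
      ∑ w ∈ univ.filter (H.Adj v), if c w = c v then 1 else 0 := by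
    rw [← Finset.card_filter, Finset.filter_filter]
  rw [e] at h
  subst hS
  exact h

theorem loc1 {k : ℕ} {H : SimpleGraph (Fin 24)} [DecidableRel H.Adj] {c : Fin 24 → Fin k}
    (hc : MajorityC H c) (v a : Fin 24) (hS : univ.filter (H.Adj v) = {a}) : c a = c v := by
  have h := loc hc v {a} hS
  rw [Finset.sum_singleton, Finset.card_singleton] at h
  by_contra hne
  simp [hne] at h

theorem loc2 {k : ℕ} {H : SimpleGraph (Fin 24)} [DecidableRel H.Adj] {c : Fin 24 → Fin k}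
    (hc : MajorityC H c) (v a b : Fin 24) (hS : univ.filter (H.Adj v) = {a, b})
    (h1 : a ∉ ({b} : Finset (Fin 24))) : c a = c v ∨ c b = c v := by
  have h := loc hc v {a, b} hS
  rw [Finset.sum_insert h1, Finset.sum_singleton, Finset.card_insert_of_notMem h1,
    Finset.card_singleton] at h
  by_cases e1 : c a = c v <;> by_cases e2 : c b = c v <;> simp [e1, e2] at h ⊢

theorem loc3 {k : ℕ} {H : SimpleGraph (Fin 24)} [DecidableRel H.Adj] {c : Fin 24 → Fin k}
    (hc : MajorityC H c) (v a b d : Fin 24) (hS : univ.filter (H.Adj v) = {a, b, d})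
    (h1 : a ∉ ({b, d} : Finset (Fin 24))) (h2 : b ∉ ({d} : Finset (Fin 24))) :
    (c a = c v ∧ c b = c v) ∨ (c a = c v ∧ c d = c v) ∨ (c b = c v ∧ c d = c v) := by
  have h := loc hc v {a, b, d} hS
  rw [Finset.sum_insert h1, Finset.sum_insert h2, Finset.sum_singleton,
    Finset.card_insert_of_notMem h1, Finset.card_insert_of_notMem h2,
    Finset.card_singleton] at h
  by_cases e1 : c a = c v <;> by_cases e2 : c b = c v <;> by_cases e3 : c d = c v <;>
    simp [e1, e2, e3] at h ⊢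

theorem loc4 {k : ℕ} {H : SimpleGraph (Fin 24)} [DecidableRel H.Adj] {c : Fin 24 → Fin k}
    (hc : MajorityC H c) (v a b d e : Fin 24) (hS : univ.filter (H.Adj v) = {a, b, d, e})
    (h1 : a ∉ ({b, d, e} : Finset (Fin 24))) (h2 : b ∉ ({d, e} : Finset (Fin 24)))
    (h3 : d ∉ ({e} : Finset (Fin 24))) :
    (c a = c v ∧ c b = c v) ∨ (c a = c v ∧ c d = c v) ∨ (c a = c v ∧ c e = c v) ∨
    (c b = c v ∧ c d = c v) ∨ (c b = c v ∧ c e = c v) ∨ (c d = c v ∧ c e = c v) := by
  have h := loc hc v {a, b, d, e} hS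
  rw [Finset.sum_insert h1, Finset.sum_insert h2, Finset.sum_insert h3, Finset.sum_singleton,
    Finset.card_insert_of_notMem h1, Finset.card_insert_of_notMem h2,
    Finset.card_insert_of_notMem h3, Finset.card_singleton] at h
  by_cases e1 : c a = c v <;> by_cases e2 : c b = c v <;> by_cases e3 : c d = c v <;>
    by_cases e4 : c e = c v <;> simp [e1, e2, e3, e4] at h ⊢

/-- Five neighbours, the last two of which have the right colour. -/
theorem loc5 {k : ℕ} {H : SimpleGraph (Fin 24)} [DecidableRel H.Adj] {c : Fin 24 → Fin k}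
    (hc : MajorityC H c) (v a b d e f : Fin 24) (hS : univ.filter (H.Adj v) = {a, b, d, e, f})
    (h1 : a ∉ ({b, d, e, f} : Finset (Fin 24))) (h2 : b ∉ ({d, e, f} : Finset (Fin 24)))
    (h3 : d ∉ ({e, f} : Finset (Fin 24))) (h4 : e ∉ ({f} : Finset (Fin 24)))
    : c a = c v ∨ c b = c v ∨ c d = c v := by
  have h := loc hc v {a, b, d, e, f} hS
  rw [Finset.sum_insert h1, Finset.sum_insert h2, Finset.sum_insert h3, Finset.sum_insert h4,
    Finset.sum_singleton, Finset.card_insert_of_notMem h1, Finset.card_insert_of_notMem h2,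
    Finset.card_insert_of_notMem h3, Finset.card_insert_of_notMem h4,
    Finset.card_singleton] at h
  by_contra hne
  push Not at hne
  obtain ⟨e1, e2, e3⟩ := hne
  by_cases e4 : c e = c v <;> by_cases e5 : c f = c v <;> simp [e1, e2, e3, e4, e5] at h

/-- Seven neighbours: four of them have the right colour, so one of the first four has. -/
theorem loc7 {k : ℕ} {H : SimpleGraph (Fin 24)} [DecidableRel H.Adj] {c : Fin 24 → Fin k}
    (hc : MajorityC H c) (v a b d e f g i : Fin 24)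
    (hS : univ.filter (H.Adj v) = {a, b, d, e, f, g, i})
    (h1 : a ∉ ({b, d, e, f, g, i} : Finset (Fin 24)))
    (h2 : b ∉ ({d, e, f, g, i} : Finset (Fin 24)))
    (h3 : d ∉ ({e, f, g, i} : Finset (Fin 24))) (h4 : e ∉ ({f, g, i} : Finset (Fin 24)))
    (h5 : f ∉ ({g, i} : Finset (Fin 24))) (h6 : g ∉ ({i} : Finset (Fin 24)))
    : c a = c v ∨ c b = c v ∨ c d = c v ∨ c e = c v := by
  have h := loc hc v {a, b, d, e, f, g, i} hS
  rw [Finset.sum_insert h1, Finset.sum_insert h2, Finset.sum_insert h3, Finset.sum_insert h4,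
    Finset.sum_insert h5, Finset.sum_insert h6,
    Finset.sum_singleton, Finset.card_insert_of_notMem h1, Finset.card_insert_of_notMem h2,
    Finset.card_insert_of_notMem h3, Finset.card_insert_of_notMem h4,
    Finset.card_insert_of_notMem h5, Finset.card_insert_of_notMem h6,
    Finset.card_singleton] at h
  by_contra hne
  push Not at hne
  obtain ⟨e1, e2, e3, e4⟩ := hne
  by_cases e5 : c f = c v <;> by_cases e6 : c g = c v <;> by_cases e7 : c i = c v <;>
    simp [e1, e2, e3, e4, e5, e6, e7] at h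

theorem card_le {k : ℕ} {c : Fin 24 → Fin k} (hs : Function.Surjective c) (l : List (Fin k))
    (h : ∀ v, c v ∈ l) : k ≤ l.toFinset.card := by
  calc k = (univ : Finset (Fin k)).card := by simp
    _ ≤ l.toFinset.card := by
        apply Finset.card_le_card
        intro b _
        obtain ⟨v, rfl⟩ := hs b
        exact List.mem_toFinset.2 (h v)

theorem card_le_of_not_nodup {k : ℕ} {c : Fin 24 → Fin k} (hs : Function.Surjective c)
    (l : List (Fin k)) (h : ∀ v, c v ∈ l) (hn : ¬ l.Nodup) : k < l.length := by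
  refine lt_of_le_of_lt (card_le hs l h) ?_
  refine lt_of_le_of_ne (List.toFinset_card_le l) ?_
  intro he
  exact hn ((Multiset.toFinset_card_eq_card_iff_nodup (m := (l : Multiset (Fin k)))).1 he)

theorem G_le : mc G ≤ 5 := by
  refine mc_le fun k c hs hc => ?_
  have l13 := loc1 hc 13 4 (by decide +kernel)
  have l14 := loc1 hc 14 4 (by decide +kernel)
  have l15 := loc1 hc 15 5 (by decide +kernel)
  have l16 := loc1 hc 16 5 (by decide +kernel)
  have l17 := loc1 hc 17 6 (by decide +kernel)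
  have l18 := loc1 hc 18 6 (by decide +kernel)
  have l19 := loc1 hc 19 7 (by decide +kernel)
  have l20 := loc1 hc 20 7 (by decide +kernel)
  have l21 := loc1 hc 21 12 (by decide +kernel)
  have l22 := loc1 hc 22 12 (by decide +kernel)
  have l23 := loc1 hc 23 12 (by decide +kernel)
  have p8 := loc2 hc 8 4 12 (by decide +kernel) (by decide)
  have p9 := loc2 hc 9 5 12 (by decide +kernel) (by decide)
  have p10 := loc2 hc 10 6 12 (by decide +kernel) (by decide)
  have p11 := loc2 hc 11 7 12 (by decide +kernel) (by decide)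
  have r4 := loc5 hc 4 0 2 8 13 14 (by decide +kernel) (by decide) (by decide) (by decide) (by decide)
  have r5 := loc5 hc 5 0 2 9 15 16 (by decide +kernel) (by decide) (by decide) (by decide) (by decide)
  have r6 := loc5 hc 6 1 3 10 17 18 (by decide +kernel) (by decide) (by decide) (by decide) (by decide)
  have r7 := loc5 hc 7 1 3 11 19 20 (by decide +kernel) (by decide) (by decide) (by decide) (by decide)
  have f12 := loc7 hc 12 8 9 10 11 21 22 23 (by decide +kernel) (by decide) (by decide)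
    (by decide) (by decide) (by decide) (by decide)
  have k0 := loc4 hc 0 1 3 4 5 (by decide +kernel) (by decide) (by decide) (by decide)
  have k1 := loc4 hc 1 0 2 6 7 (by decide +kernel) (by decide) (by decide) (by decide)
  have k2 := loc4 hc 2 1 3 4 5 (by decide +kernel) (by decide) (by decide) (by decide)
  have k3 := loc4 hc 3 0 2 6 7 (by decide +kernel) (by decide) (by decide) (by decide)
  by_cases hA : c 0 = c 1 ∧ c 0 = c 2 ∧ c 0 = c 3 ∧ c 4 ≠ c 0 ∧ c 5 ≠ c 0 ∧ c 6 ≠ c 0 ∧ c 7 ≠ c 0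
  · refine (card_le hs [c 0, c 4, c 5, c 6, c 7] ?_).trans (List.toFinset_card_le _)
    obtain ⟨a1, a2, a3, a4, a5, a6, a7⟩ := hA
    have hf : c 12 = c 4 ∨ c 12 = c 5 ∨ c 12 = c 6 ∨ c 12 = c 7 := by grind
    intro v
    simp only [List.mem_cons, List.not_mem_nil, or_false]
    fin_cases v <;> grind
  · have q0 : c 0 = c 4 ∨ c 0 = c 5 ∨ c 0 = c 6 ∨ c 0 = c 7 := by grind
    have q1 : c 1 = c 4 ∨ c 1 = c 5 ∨ c 1 = c 6 ∨ c 1 = c 7 := by grind
    have q2 : c 2 = c 4 ∨ c 2 = c 5 ∨ c 2 = c 6 ∨ c 2 = c 7 := by grind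
    have q3 : c 3 = c 4 ∨ c 3 = c 5 ∨ c 3 = c 6 ∨ c 3 = c 7 := by grind
    refine (card_le hs [c 12, c 4, c 5, c 6, c 7] ?_).trans (List.toFinset_card_le _)
    intro v
    simp only [List.mem_cons, List.not_mem_nil, or_false]
    fin_cases v <;> grind

theorem del01_le : mc (del 0 1) ≤ 4 := by
  refine mc_le fun k c hs hc => ?_
  have l13 := loc1 hc 13 4 (by decide +kernel)
  have l14 := loc1 hc 14 4 (by decide +kernel)
  have l15 := loc1 hc 15 5 (by decide +kernel)
  have l16 := loc1 hc 16 5 (by decide +kernel)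
  have l17 := loc1 hc 17 6 (by decide +kernel)
  have l18 := loc1 hc 18 6 (by decide +kernel)
  have l19 := loc1 hc 19 7 (by decide +kernel)
  have l20 := loc1 hc 20 7 (by decide +kernel)
  have l21 := loc1 hc 21 12 (by decide +kernel)
  have l22 := loc1 hc 22 12 (by decide +kernel)
  have l23 := loc1 hc 23 12 (by decide +kernel)
  have p8 := loc2 hc 8 4 12 (by decide +kernel) (by decide)
  have p9 := loc2 hc 9 5 12 (by decide +kernel) (by decide)
  have p10 := loc2 hc 10 6 12 (by decide +kernel) (by decide)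
  have p11 := loc2 hc 11 7 12 (by decide +kernel) (by decide)
  have r4 := loc5 hc 4 0 2 8 13 14 (by decide +kernel) (by decide) (by decide) (by decide) (by decide)
  have r5 := loc5 hc 5 0 2 9 15 16 (by decide +kernel) (by decide) (by decide) (by decide) (by decide)
  have r6 := loc5 hc 6 1 3 10 17 18 (by decide +kernel) (by decide) (by decide) (by decide) (by decide)
  have r7 := loc5 hc 7 1 3 11 19 20 (by decide +kernel) (by decide) (by decide) (by decide) (by decide)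
  have f12 := loc7 hc 12 8 9 10 11 21 22 23 (by decide +kernel) (by decide) (by decide)
    (by decide) (by decide) (by decide) (by decide)
  have k0 := loc3 hc 0 3 4 5 (by decide +kernel) (by decide) (by decide)
  have k1 := loc3 hc 1 2 6 7 (by decide +kernel) (by decide) (by decide)
  have k2 := loc4 hc 2 1 3 4 5 (by decide +kernel) (by decide) (by decide) (by decide)
  have k3 := loc4 hc 3 0 2 6 7 (by decide +kernel) (by decide) (by decide) (by decide)
  have q0 : c 0 = c 4 ∨ c 0 = c 5 ∨ c 0 = c 6 ∨ c 0 = c 7 := by grind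
  have q1 : c 1 = c 4 ∨ c 1 = c 5 ∨ c 1 = c 6 ∨ c 1 = c 7 := by grind
  have q2 : c 2 = c 4 ∨ c 2 = c 5 ∨ c 2 = c 6 ∨ c 2 = c 7 := by grind
  have q3 : c 3 = c 4 ∨ c 3 = c 5 ∨ c 3 = c 6 ∨ c 3 = c 7 := by grind
  have hn : ¬ [c 12, c 4, c 5, c 6, c 7].Nodup := by
    intro hnd
    simp only [List.nodup_cons, List.mem_cons, List.not_mem_nil, or_false, not_or,
      not_false_eq_true, List.nodup_nil, and_true] at hnd
    grind
  refine Nat.le_of_lt_succ (card_le_of_not_nodup hs [c 12, c 4, c 5, c 6, c 7] ?_ hn)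
  intro v
  simp only [List.mem_cons, List.not_mem_nil, or_false]
  fin_cases v <;> grind

theorem del12_le : mc (del 1 2) ≤ 4 := by
  refine mc_le fun k c hs hc => ?_
  have l13 := loc1 hc 13 4 (by decide +kernel)
  have l14 := loc1 hc 14 4 (by decide +kernel)
  have l15 := loc1 hc 15 5 (by decide +kernel)
  have l16 := loc1 hc 16 5 (by decide +kernel)
  have l17 := loc1 hc 17 6 (by decide +kernel)
  have l18 := loc1 hc 18 6 (by decide +kernel)
  have l19 := loc1 hc 19 7 (by decide +kernel)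
  have l20 := loc1 hc 20 7 (by decide +kernel)
  have l21 := loc1 hc 21 12 (by decide +kernel)
  have l22 := loc1 hc 22 12 (by decide +kernel)
  have l23 := loc1 hc 23 12 (by decide +kernel)
  have p8 := loc2 hc 8 4 12 (by decide +kernel) (by decide)
  have p9 := loc2 hc 9 5 12 (by decide +kernel) (by decide)
  have p10 := loc2 hc 10 6 12 (by decide +kernel) (by decide)
  have p11 := loc2 hc 11 7 12 (by decide +kernel) (by decide)
  have r4 := loc5 hc 4 0 2 8 13 14 (by decide +kernel) (by decide) (by decide) (by decide) (by decide)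
  have r5 := loc5 hc 5 0 2 9 15 16 (by decide +kernel) (by decide) (by decide) (by decide) (by decide)
  have r6 := loc5 hc 6 1 3 10 17 18 (by decide +kernel) (by decide) (by decide) (by decide) (by decide)
  have r7 := loc5 hc 7 1 3 11 19 20 (by decide +kernel) (by decide) (by decide) (by decide) (by decide)
  have f12 := loc7 hc 12 8 9 10 11 21 22 23 (by decide +kernel) (by decide) (by decide)
    (by decide) (by decide) (by decide) (by decide)
  have k0 := loc4 hc 0 1 3 4 5 (by decide +kernel) (by decide) (by decide) (by decide)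
  have k1 := loc3 hc 1 0 6 7 (by decide +kernel) (by decide) (by decide)
  have k2 := loc3 hc 2 3 4 5 (by decide +kernel) (by decide) (by decide)
  have k3 := loc4 hc 3 0 2 6 7 (by decide +kernel) (by decide) (by decide) (by decide)
  have q0 : c 0 = c 4 ∨ c 0 = c 5 ∨ c 0 = c 6 ∨ c 0 = c 7 := by grind
  have q1 : c 1 = c 4 ∨ c 1 = c 5 ∨ c 1 = c 6 ∨ c 1 = c 7 := by grind
  have q2 : c 2 = c 4 ∨ c 2 = c 5 ∨ c 2 = c 6 ∨ c 2 = c 7 := by grind
  have q3 : c 3 = c 4 ∨ c 3 = c 5 ∨ c 3 = c 6 ∨ c 3 = c 7 := by grind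
  have hn : ¬ [c 12, c 4, c 5, c 6, c 7].Nodup := by
    intro hnd
    simp only [List.nodup_cons, List.mem_cons, List.not_mem_nil, or_false, not_or,
      not_false_eq_true, List.nodup_nil, and_true] at hnd
    grind
  refine Nat.le_of_lt_succ (card_le_of_not_nodup hs [c 12, c 4, c 5, c 6, c 7] ?_ hn)
  intro v
  simp only [List.mem_cons, List.not_mem_nil, or_false]
  fin_cases v <;> grind

theorem del23_le : mc (del 2 3) ≤ 4 := by
  refine mc_le fun k c hs hc => ?_
  have l13 := loc1 hc 13 4 (by decide +kernel)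
  have l14 := loc1 hc 14 4 (by decide +kernel)
  have l15 := loc1 hc 15 5 (by decide +kernel)
  have l16 := loc1 hc 16 5 (by decide +kernel)
  have l17 := loc1 hc 17 6 (by decide +kernel)
  have l18 := loc1 hc 18 6 (by decide +kernel)
  have l19 := loc1 hc 19 7 (by decide +kernel)
  have l20 := loc1 hc 20 7 (by decide +kernel)
  have l21 := loc1 hc 21 12 (by decide +kernel)
  have l22 := loc1 hc 22 12 (by decide +kernel)
  have l23 := loc1 hc 23 12 (by decide +kernel)
  have p8 := loc2 hc 8 4 12 (by decide +kernel) (by decide)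
  have p9 := loc2 hc 9 5 12 (by decide +kernel) (by decide)
  have p10 := loc2 hc 10 6 12 (by decide +kernel) (by decide)
  have p11 := loc2 hc 11 7 12 (by decide +kernel) (by decide)
  have r4 := loc5 hc 4 0 2 8 13 14 (by decide +kernel) (by decide) (by decide) (by decide) (by decide)
  have r5 := loc5 hc 5 0 2 9 15 16 (by decide +kernel) (by decide) (by decide) (by decide) (by decide)
  have r6 := loc5 hc 6 1 3 10 17 18 (by decide +kernel) (by decide) (by decide) (by decide) (by decide)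
  have r7 := loc5 hc 7 1 3 11 19 20 (by decide +kernel) (by decide) (by decide) (by decide) (by decide)
  have f12 := loc7 hc 12 8 9 10 11 21 22 23 (by decide +kernel) (by decide) (by decide)
    (by decide) (by decide) (by decide) (by decide)
  have k0 := loc4 hc 0 1 3 4 5 (by decide +kernel) (by decide) (by decide) (by decide)
  have k1 := loc4 hc 1 0 2 6 7 (by decide +kernel) (by decide) (by decide) (by decide)
  have k2 := loc3 hc 2 1 4 5 (by decide +kernel) (by decide) (by decide)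
  have k3 := loc3 hc 3 0 6 7 (by decide +kernel) (by decide) (by decide)
  have q0 : c 0 = c 4 ∨ c 0 = c 5 ∨ c 0 = c 6 ∨ c 0 = c 7 := by grind
  have q1 : c 1 = c 4 ∨ c 1 = c 5 ∨ c 1 = c 6 ∨ c 1 = c 7 := by grind
  have q2 : c 2 = c 4 ∨ c 2 = c 5 ∨ c 2 = c 6 ∨ c 2 = c 7 := by grind
  have q3 : c 3 = c 4 ∨ c 3 = c 5 ∨ c 3 = c 6 ∨ c 3 = c 7 := by grind
  have hn : ¬ [c 12, c 4, c 5, c 6, c 7].Nodup := by
    intro hnd
    simp only [List.nodup_cons, List.mem_cons, List.not_mem_nil, or_false, not_or,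
      not_false_eq_true, List.nodup_nil, and_true] at hnd
    grind
  refine Nat.le_of_lt_succ (card_le_of_not_nodup hs [c 12, c 4, c 5, c 6, c 7] ?_ hn)
  intro v
  simp only [List.mem_cons, List.not_mem_nil, or_false]
  fin_cases v <;> grind

theorem del30_le : mc (del 3 0) ≤ 4 := by
  refine mc_le fun k c hs hc => ?_
  have l13 := loc1 hc 13 4 (by decide +kernel)
  have l14 := loc1 hc 14 4 (by decide +kernel)
  have l15 := loc1 hc 15 5 (by decide +kernel)
  have l16 := loc1 hc 16 5 (by decide +kernel)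
  have l17 := loc1 hc 17 6 (by decide +kernel)
  have l18 := loc1 hc 18 6 (by decide +kernel)
  have l19 := loc1 hc 19 7 (by decide +kernel)
  have l20 := loc1 hc 20 7 (by decide +kernel)
  have l21 := loc1 hc 21 12 (by decide +kernel)
  have l22 := loc1 hc 22 12 (by decide +kernel)
  have l23 := loc1 hc 23 12 (by decide +kernel)
  have p8 := loc2 hc 8 4 12 (by decide +kernel) (by decide)
  have p9 := loc2 hc 9 5 12 (by decide +kernel) (by decide)
  have p10 := loc2 hc 10 6 12 (by decide +kernel) (by decide)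
  have p11 := loc2 hc 11 7 12 (by decide +kernel) (by decide)
  have r4 := loc5 hc 4 0 2 8 13 14 (by decide +kernel) (by decide) (by decide) (by decide) (by decide)
  have r5 := loc5 hc 5 0 2 9 15 16 (by decide +kernel) (by decide) (by decide) (by decide) (by decide)
  have r6 := loc5 hc 6 1 3 10 17 18 (by decide +kernel) (by decide) (by decide) (by decide) (by decide)
  have r7 := loc5 hc 7 1 3 11 19 20 (by decide +kernel) (by decide) (by decide) (by decide) (by decide)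
  have f12 := loc7 hc 12 8 9 10 11 21 22 23 (by decide +kernel) (by decide) (by decide)
    (by decide) (by decide) (by decide) (by decide)
  have k0 := loc3 hc 0 1 4 5 (by decide +kernel) (by decide) (by decide)
  have k1 := loc4 hc 1 0 2 6 7 (by decide +kernel) (by decide) (by decide) (by decide)
  have k2 := loc4 hc 2 1 3 4 5 (by decide +kernel) (by decide) (by decide) (by decide)
  have k3 := loc3 hc 3 2 6 7 (by decide +kernel) (by decide) (by decide)
  have q0 : c 0 = c 4 ∨ c 0 = c 5 ∨ c 0 = c 6 ∨ c 0 = c 7 := by grind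
  have q1 : c 1 = c 4 ∨ c 1 = c 5 ∨ c 1 = c 6 ∨ c 1 = c 7 := by grind
  have q2 : c 2 = c 4 ∨ c 2 = c 5 ∨ c 2 = c 6 ∨ c 2 = c 7 := by grind
  have q3 : c 3 = c 4 ∨ c 3 = c 5 ∨ c 3 = c 6 ∨ c 3 = c 7 := by grind
  have hn : ¬ [c 12, c 4, c 5, c 6, c 7].Nodup := by
    intro hnd
    simp only [List.nodup_cons, List.mem_cons, List.not_mem_nil, or_false, not_or,
      not_false_eq_true, List.nodup_nil, and_true] at hnd
    grind
  refine Nat.le_of_lt_succ (card_le_of_not_nodup hs [c 12, c 4, c 5, c 6, c 7] ?_ hn)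
  intro v
  simp only [List.mem_cons, List.not_mem_nil, or_false]
  fin_cases v <;> grind

theorem mc_G : mc G = 5 := le_antisymm G_le five_le

theorem del_swap (a b : Fin 24) : del a b = del b a := by
  unfold del
  rw [Sym2.eq_swap]

theorem cycle_edges : ∀ a b : Fin 24, G.Adj a b → (a : ℕ) < 4 → (b : ℕ) < 4 →
    (a = 0 ∧ b = 1) ∨ (a = 1 ∧ b = 0) ∨ (a = 1 ∧ b = 2) ∨ (a = 2 ∧ b = 1) ∨
    (a = 2 ∧ b = 3) ∨ (a = 3 ∧ b = 2) ∨ (a = 3 ∧ b = 0) ∨ (a = 0 ∧ b = 3) := by
  decide +kernel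

theorem cycle_le (a b : Fin 24) (h : G.Adj a b) (ha : (a : ℕ) < 4) (hb : (b : ℕ) < 4) :
    mc (del a b) ≤ 4 := by
  rcases cycle_edges a b h ha hb with ⟨rfl, rfl⟩ | ⟨rfl, rfl⟩ | ⟨rfl, rfl⟩ | ⟨rfl, rfl⟩ |
    ⟨rfl, rfl⟩ | ⟨rfl, rfl⟩ | ⟨rfl, rfl⟩ | ⟨rfl, rfl⟩
  · exact del01_le
  · rw [del_swap]; exact del01_le
  · exact del12_le
  · rw [del_swap]; exact del12_le
  · exact del23_le
  · rw [del_swap]; exact del23_le
  · exact del30_le
  · rw [del_swap]; exact del30_le

/-- There is an mc-edge-critical graph with two edges `e`, `f` such that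
`mc (G - e) < mc G < mc (G - f)`. -/
theorem result : ∃ G : SimpleGraph (Fin 24),
    (∀ e ∈ G.edgeSet, mc (G.deleteEdges {e}) ≠ mc G) ∧
    ∃ e ∈ G.edgeSet, ∃ f ∈ G.edgeSet,
      mc (G.deleteEdges {e}) < mc G ∧ mc G < mc (G.deleteEdges {f}) := by
  refine ⟨G, ?_, s(0, 1), ?_, s(0, 4), ?_, ?_, ?_⟩
  · intro e he
    induction e using Sym2.ind with
    | _ a b =>
      rw [SimpleGraph.mem_edgeSet] at he
      rw [mc_G]
      by_cases hab : (a : ℕ) < 4 ∧ (b : ℕ) < 4
      · have := cycle_le a b he hab.1 hab.2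
        unfold del at this
        omega
      · have := six_le a b he hab
        unfold del at this
        omega
  · rw [SimpleGraph.mem_edgeSet]; decide +kernel
  · rw [SimpleGraph.mem_edgeSet]; decide +kernel
  · rw [mc_G]
    exact Nat.lt_succ_of_le del01_le
  · rw [mc_G]
    exact six_le 0 4 (by decide +kernel) (by decide)

end Pool.Agent.Results.MP_232fda_co.MixedDeletions
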